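import Pool.Agent.helper78.WB.SpecIII

/-!
# Project wb, row PB0
-/

set_option autoImplicit false

namespace Pool.Agent.WB

open MvPolynomial

/-- a polynomial without the last variable does not see the last coordinate -/
theorem eval_of_degreeOf_two {p : MvPolynomial (Fin 3) ℤ} (hw : degreeOf 2 p = 0) (ζ : V3)
    (w : ℤ) : eval (![ζ 0, ζ 1, w] : V3) p = eval ζ p := by
  rw [eval_eq', eval_eq']
  refine Finset.sum_congr rfl fun μ hμ => ?_
  have h2 : μ 2 = 0 := by
    have := monomial_le_degreeOf (2 : Fin 3) hμ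
    omega
  rw [Fin.prod_univ_three, Fin.prod_univ_three, h2]
  simp

theorem PB0 (h1 : BZ_stmt) (h2 : HQ_stmt) : PB0_stmt := by
  intro d p hirr hp hd hw ζ hcop hev
  have hne : ζ 0 ≠ 0 ∨ ζ 1 ≠ 0 := by
    by_contra hcon
    push Not at hcon
    rw [hcon.1, hcon.2] at hcop
    exact not_isCoprime_zero_zero hcop
  set q : MvPolynomial (Fin 3) ℤ := C (ζ 1) * X 0 - C (ζ 0) * X 1 with hq
  have hq1 : q.IsHomogeneous 1 := by
    have a1 : (C (ζ 1) * X 0 : MvPolynomial (Fin 3) ℤ).IsHomogeneous 1 := by
      have := (isHomogeneous_C (Fin 3) (ζ 1)).mul (isHomogeneous_X ℤ (0 : Fin 3))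
      simpa using this
    have a2 : (C (ζ 0) * X 1 : MvPolynomial (Fin 3) ℤ).IsHomogeneous 1 := by
      have := (isHomogeneous_C (Fin 3) (ζ 0)).mul (isHomogeneous_X ℤ (1 : Fin 3))
      simpa using this
    exact a1.sub a2
  have hq0 : q ≠ 0 := by
    intro h0
    have e1 : eval (![1, 0, 0] : V3) q = ζ 1 := by simp [hq]
    have e2 : eval (![0, 1, 0] : V3) q = - ζ 0 := by simp [hq]
    rw [h0, map_zero] at e1 e2
    rcases hne with h | h
    · exact h (by linarith)
    · exact h e1.symm
  have hp0 : p ≠ 0 := hirr.ne_zero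
  by_cases hdvd : p ∣ q
  · obtain ⟨h3, -⟩ := h2 ℤ p q d 1 hp hp0 hq1 hq0 hdvd
    omega
  · set S : Finset V3 := (Finset.range (d + 1)).image
      (fun w : ℕ => (![ζ 0, ζ 1, (w : ℤ)] : V3)) with hS
    have hcard : S.card = d + 1 := by
      rw [hS, Finset.card_image_of_injective, Finset.card_range]
      intro w w' h
      have := congrFun h 2
      simpa using this
    have hNP : NP S := by
      intro a ha b hb hab
      rw [hS, Finset.mem_image] at ha hb
      obtain ⟨w, -, rfl⟩ := ha
      obtain ⟨w', -, rfl⟩ := hb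
      have hww : (w : ℤ) ≠ (w' : ℤ) := by
        intro h
        exact hab (by rw [h])
      rcases hne with h | h
      · refine ⟨0, 2, ?_⟩
        intro h3
        simp only [Matrix.cons_val_zero, Matrix.cons_val] at h3
        apply hww
        have : ζ 0 * (w' : ℤ) = ζ 0 * (w : ℤ) := by rw [h3]; ring
        exact (mul_left_cancel₀ h this).symm
      · refine ⟨1, 2, ?_⟩
        intro h3
        simp only [Matrix.cons_val_one, Matrix.cons_val] at h3
        apply hww
        have : ζ 1 * (w' : ℤ) = ζ 1 * (w : ℤ) := by rw [h3]; ring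
        exact (mul_left_cancel₀ h this).symm
    have hz : ∀ a ∈ S, a ≠ 0 ∧ eval a p = 0 ∧ eval a q = 0 := by
      intro a ha
      rw [hS, Finset.mem_image] at ha
      obtain ⟨w, -, rfl⟩ := ha
      refine ⟨?_, ?_, ?_⟩
      · intro h0
        have b0 := congrFun h0 0
        have b1 := congrFun h0 1
        simp at b0 b1
        rcases hne with h | h
        · exact h b0
        · exact h b1
      · rw [eval_of_degreeOf_two hw]
        exact hev
      · simp [hq]
        ring
    have := h1 p q d 1 hirr hp (by omega) hq1 hdvd S hNP hz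
    rw [hcard] at this
    omega

end Pool.Agent.WB
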